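import Mathlib
import Pool.Agent.H418R3.GurProp2

/-! The Gurarii property of the space of a rich tower on an arbitrary index set. -/

namespace Pool.Agent.Q196.GB

open Pool.Agent.H418R3.Gur

variable {I : Type} (Ψ : Tower I)

open Classical in
/-- The tower with the functionals at `N` replaced by zero. -/
noncomputable def modT (N : Finset I) : Tower I where
  ψ n := if n ∈ N then 0 else Ψ.ψ n
  rk := Ψ.rk
  lt t s h := by
    by_cases ht : t ∈ N
    · rw [if_pos ht] at h; exact absurd rfl h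
    · rw [if_neg ht] at h; exact Ψ.lt t s h
  le t := by
    by_cases ht : t ∈ N
    · rw [if_pos ht]; simp
    · rw [if_neg ht]; exact Ψ.le t

/-- The vector supported in `N` with prescribed coordinates there. -/
noncomputable def Lf (N : Finset I) : (I →₀ ℝ) →ₗ[ℝ] (I →₀ ℝ) where
  toFun w := ∑ n ∈ N, Finsupp.single n
    ((modT Ψ N).coord w n - ev (Ψ.ψ n) ((modT Ψ N).coord w))
  map_add' v w := by
    rw [← Finset.sum_add_distrib]
    refine Finset.sum_congr rfl fun n _ => ?_
    rw [← Finsupp.single_add, Tower.coord_add, ev_add, Pi.add_apply]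
    congr 1
    ring
  map_smul' a w := by
    rw [Finset.smul_sum]
    refine Finset.sum_congr rfl fun n _ => ?_
    rw [Finsupp.smul_single, Tower.coord_smul, ev_smul, Pi.smul_apply]
    congr 1
    simp only [smul_eq_mul, RingHom.id_apply]
    ring

open Classical in
theorem sum_single_apply (N : Finset I) (a : I → ℝ) (n : I) :
    (∑ k ∈ N, Finsupp.single k (a k) : I →₀ ℝ) n = if n ∈ N then a n else 0 := by
  rw [Finsupp.finsetSum_apply]
  by_cases h : n ∈ N
  · rw [if_pos h, Finset.sum_eq_single_of_mem n h]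
    · rw [Finsupp.single_eq_same]
    · intro k _ hk
      rw [Finsupp.single_eq_of_ne (Ne.symm hk)]
  · rw [if_neg h, Finset.sum_eq_zero]
    intro k hk
    rw [Finsupp.single_eq_of_ne]
    rintro rfl
    exact h hk

open Classical in
theorem Lf_apply (N : Finset I) (w : I →₀ ℝ) (n : I) : Lf Ψ N w n
    = if n ∈ N then (modT Ψ N).coord w n - ev (Ψ.ψ n) ((modT Ψ N).coord w) else 0 :=
  sum_single_apply N (fun n => (modT Ψ N).coord w n - ev (Ψ.ψ n) ((modT Ψ N).coord w)) n

theorem coord_Lf {N : Finset I} {w : I →₀ ℝ} (hw : ∀ n, w n ≠ 0 → n ∈ N) :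
    Ψ.coord (Lf Ψ N w) = (modT Ψ N).coord w := by
  classical
  symm
  apply Tower.coord_unique
  intro n
  rw [Lf_apply]
  by_cases h : n ∈ N
  · rw [if_pos h]
    ring
  · rw [if_neg h, Tower.coord_eq]
    have h0 : w n = 0 := by
      by_contra hne
      exact h (hw n hne)
    have h1 : (modT Ψ N).ψ n = Ψ.ψ n := by
      show (if n ∈ N then 0 else Ψ.ψ n) = _
      rw [if_neg h]
    rw [h0, h1]

theorem coord_Lf_mem {N : Finset I} {w : I →₀ ℝ} (hw : ∀ n, w n ≠ 0 → n ∈ N) {n : I}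
    (hn : n ∈ N) : Ψ.coord (Lf Ψ N w) n = w n := by
  classical
  rw [coord_Lf Ψ hw, Tower.coord_eq]
  have h1 : (modT Ψ N).ψ n = 0 := by
    show (if n ∈ N then 0 else Ψ.ψ n) = _
    rw [if_pos hn]
  rw [h1, ev_zero, add_zero]

theorem sn_Lf_le {N : Finset I} {w : I →₀ ℝ} (hw : ∀ n, w n ≠ 0 → n ∈ N) {M : ℝ} (hM : 0 ≤ M)
    (h : ∀ n ∈ N, |w n| ≤ M) : Ψ.sn (Lf Ψ N w) ≤ M := by
  classical
  apply Ψ.sn_le hM
  intro t ht
  have htN : t ∈ N := by
    by_contra hne
    rw [Lf_apply, if_neg hne] at ht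
    exact ht rfl
  rw [coord_Lf_mem Ψ hw htN]
  exact h t htN

/-- A vector `∑ n ∈ N, a n • e_n`. -/
noncomputable def vec (N : Finset I) (a : I → ℝ) : I →₀ ℝ := ∑ n ∈ N, Finsupp.single n (a n)

open Classical in
theorem vec_apply (N : Finset I) (a : I → ℝ) (n : I) : vec N a n = if n ∈ N then a n else 0 :=
  sum_single_apply N a n

theorem vec_supp (N : Finset I) (a : I → ℝ) (n : I) (h : vec N a n ≠ 0) : n ∈ N := by
  classical
  by_contra hne
  rw [vec_apply, if_neg hne] at h
  exact h rfl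

/-! ### Coordinate functionals -/

noncomputable def coordL (n : I) : (I →₀ ℝ) →ₗ[ℝ] ℝ where
  toFun v := Ψ.coord v n
  map_add' v w := by rw [Tower.coord_add]; rfl
  map_smul' a v := by rw [Tower.coord_smul]; rfl

noncomputable def cf (n : I) : Sp Ψ.sn →L[ℝ] ℝ := lift Ψ.sn (coordL Ψ n)

theorem cf_bound (n : I) (v : I →₀ ℝ) : ‖coordL Ψ n v‖ ≤ 1 * Ψ.sn v := by
  rw [one_mul]; exact Ψ.coord_le_sn v n

theorem cf_ic (n : I) (v : I →₀ ℝ) : cf Ψ n (ic Ψ.sn v) = Ψ.coord v n :=
  lift_ic (cf_bound Ψ n) v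

theorem cf_le (n : I) (x : Sp Ψ.sn) : |cf Ψ n x| ≤ ‖x‖ := by
  have := norm_lift_le (cf_bound Ψ n) x
  rwa [one_mul] at this

theorem coord_sub (v w : I →₀ ℝ) (n : I) : Ψ.coord (v - w) n = Ψ.coord v n - Ψ.coord w n :=
  (coordL Ψ n).map_sub v w

/-- Functionals of norm at most one are approximated, on vectors supported in a finite set `R`, by
rational functionals. -/
theorem approx_functional (H : Sp Ψ.sn →L[ℝ] ℝ) (hH : ∀ x, |H x| ≤ ‖x‖) (R : Finset I) {δ : ℝ}
    (hδ : 0 < δ) : ∃ f : I →₀ ℚ, (∀ s, f s ≠ 0 → s ∈ R) ∧ (f.sum fun _ q => |q|) ≤ 1 ∧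
      ∀ v : I →₀ ℝ, (∀ n, v n ≠ 0 → n ∈ R) →
        |H (ic Ψ.sn v) - ev f (Ψ.coord v)| ≤ δ * Ψ.sn v := by
  classical
  -- the dual basis
  let η : I → ℝ := fun i => H (ic Ψ.sn (Lf Ψ R (Finsupp.single i 1)))
  have hlin : ∀ a : I → ℝ, H (ic Ψ.sn (Lf Ψ R (vec R a))) = ∑ i ∈ R, a i * η i := by
    intro a
    have : vec R a = ∑ i ∈ R, a i • (Finsupp.single i 1 : I →₀ ℝ) := by
      unfold vec
      exact Finset.sum_congr rfl fun i _ => by rw [Finsupp.smul_single, smul_eq_mul, mul_one]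
    rw [this]
    simp only [map_sum, map_smul, smul_eq_mul, η]
  have hη : ∑ i ∈ R, |η i| ≤ 1 := by
    let s : I → ℝ := fun i => if 0 ≤ η i then 1 else -1
    have h1 : ∀ i, s i * η i = |η i| := by
      intro i
      simp only [s]
      split_ifs with h
      · rw [one_mul, abs_of_nonneg h]
      · rw [abs_of_neg (not_le.mp h)]; ring
    have h2 : ∑ i ∈ R, |η i| = H (ic Ψ.sn (Lf Ψ R (vec R s))) := by
      rw [hlin]
      exact Finset.sum_congr rfl fun i _ => (h1 i).symm
    rw [h2]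
    refine (le_abs_self _).trans ((hH _).trans ?_)
    rw [norm_ic]
    refine sn_Lf_le Ψ (vec_supp R s) zero_le_one fun n hn => ?_
    rw [vec_apply, if_pos hn]
    simp only [s]
    split_ifs <;> simp
  have hδ' : 0 < δ / (R.card + 1) := div_pos hδ (by positivity)
  choose q hq1 hq2 using fun i => exists_rat_toward (η i) hδ'
  let f : I →₀ ℚ := Finsupp.onFinset R (fun i => if i ∈ R then q i else 0) (by
    intro i hi
    by_contra hne
    simp only [if_neg hne] at hi
    exact hi rfl)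
  have hf : ∀ i, f i = if i ∈ R then q i else 0 := fun i => rfl
  have hfs : ∀ s, f s ≠ 0 → s ∈ R := by
    intro s hs
    by_contra hne
    rw [hf, if_neg hne] at hs
    exact hs rfl
  have hsub : f.support ⊆ R := fun s hs => hfs s (Finsupp.mem_support_iff.mp hs)
  refine ⟨f, hfs, ?_, ?_⟩
  · have h1 : (f.sum fun _ q => |q|) = ∑ i ∈ R, |f i| := by
      unfold Finsupp.sum
      apply Finset.sum_subset hsub
      intro i _ hi
      rw [Finsupp.notMem_support_iff.mp hi]; simp
    rw [h1]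
    have h2 : ((∑ i ∈ R, |f i| : ℚ) : ℝ) ≤ 1 := by
      push_cast
      refine le_trans (Finset.sum_le_sum fun i hi => ?_) hη
      rw [hf, if_pos hi]
      exact hq1 i
    exact_mod_cast h2
  · intro v hvR
    -- v equals the lift of its coordinates
    have h1 : v = Lf Ψ R (vec R (Ψ.coord v)) := by
      rw [← sub_eq_zero]
      apply Ψ.sn_eq_zero
      apply le_antisymm _ (apply_nonneg _ _)
      apply Ψ.sn_le le_rfl
      intro t ht
      have htR : t ∈ R := by
        by_contra hne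
        apply ht
        rw [Finsupp.sub_apply, Lf_apply, if_neg hne]
        have : v t = 0 := by
          by_contra h
          exact hne (hvR t h)
        rw [this, sub_zero]
      rw [coord_sub, coord_Lf_mem Ψ (vec_supp R _) htR, vec_apply, if_pos htR, sub_self, abs_zero]
    have h2 : H (ic Ψ.sn v) = ∑ i ∈ R, Ψ.coord v i * η i := by
      conv_lhs => rw [h1]
      exact hlin _
    have h3 : ev f (Ψ.coord v) = ∑ i ∈ R, Ψ.coord v i * (f i : ℝ) := by
      unfold ev Finsupp.sum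
      rw [Finset.sum_subset hsub]
      · exact Finset.sum_congr rfl fun i _ => mul_comm _ _
      · intro i _ hi
        rw [Finsupp.notMem_support_iff.mp hi]; simp
    rw [h2, h3, ← Finset.sum_sub_distrib]
    refine (Finset.abs_sum_le_sum_abs _ _).trans ?_
    have h4 : ∀ i ∈ R, |Ψ.coord v i * η i - Ψ.coord v i * (f i : ℝ)|
        ≤ Ψ.sn v * (δ / (R.card + 1)) := by
      intro i hi
      rw [← mul_sub, abs_mul]
      refine mul_le_mul (Ψ.coord_le_sn v i) ?_ (abs_nonneg _) (apply_nonneg _ _)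
      rw [hf, if_pos hi]
      exact hq2 i
    refine (Finset.sum_le_sum h4).trans ?_
    rw [Finset.sum_const, nsmul_eq_mul]
    have hr : (0 : ℝ) ≤ (R.card : ℝ) := Nat.cast_nonneg _
    generalize (R.card : ℝ) = r at hr ⊢
    have hr1 : r + 1 ≠ 0 := by linarith
    have h5 : r * (Ψ.sn v * (δ / (r + 1))) = (r / (r + 1)) * (δ * Ψ.sn v) := by
      rw [div_mul_eq_mul_div, mul_div_assoc', mul_div_assoc']
      congr 1
      ring
    rw [h5]
    have h6 : r / (r + 1) ≤ 1 := by
      rw [div_le_one (by linarith)]; linarith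
    exact mul_le_of_le_one_left (mul_nonneg hδ.le (apply_nonneg _ _)) h6

theorem exists_reps : ∀ (K : ℕ) (P : Fin K → I → Prop)
    (_ : ∀ j (R : Finset I), ∃ t ∉ R, P j t) (R : Finset I),
    ∃ n : Fin K → I, Function.Injective n ∧ (∀ j, n j ∉ R) ∧ ∀ j, P j (n j)
  | 0, _, _, _ => ⟨Fin.elim0, fun i => i.elim0, fun i => i.elim0, fun i => i.elim0⟩
  | K + 1, P, h, R => by
    classical
    obtain ⟨t, htR, ht⟩ := h 0 R
    obtain ⟨n, hn1, hn2, hn3⟩ := exists_reps K (fun j => P j.succ) (fun j => h j.succ)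
      (insert t R)
    refine ⟨Fin.cons t n, ?_, ?_, ?_⟩
    · rw [Fin.cons_injective_iff]
      refine ⟨?_, hn1⟩
      rintro ⟨j, hj⟩
      exact hn2 j (by rw [hj]; exact Finset.mem_insert_self _ _)
    · intro j
      refine Fin.cases ?_ (fun i => ?_) j
      · simpa using htR
      · simp only [Fin.cons_succ]
        exact fun h => hn2 i (Finset.mem_insert_of_mem h)
    · intro j
      refine Fin.cases ?_ (fun i => ?_) j
      · simpa using ht
      · simpa using hn3 i

/-- The Banach space of a rich tower has the Gurarii property. -/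
theorem gurarii (hrich : ∀ f : I →₀ ℚ, (f.sum fun _ q => |q|) ≤ 1 → ∀ R : Finset I,
      ∃ t ∉ R, Ψ.ψ t = f) (ε : ℝ) (hε : 0 < ε) (A : Submodule ℝ (Sp Ψ.sn)) (B : Type)
    [NormedAddCommGroup B] [NormedSpace ℝ B] [FiniteDimensional ℝ B] (g : A →ₗᵢ[ℝ] B) :
    ∃ f : B →L[ℝ] Sp Ψ.sn, (∀ b, ‖b‖ / (1 + ε) ≤ ‖f b‖ ∧ ‖f b‖ ≤ (1 + ε) * ‖b‖) ∧
      ∀ a : A, ‖f (g a) - a‖ ≤ ε * ‖a‖ := by
  classical
  have : FiniteDimensional ℝ A := FiniteDimensional.of_injective g.toLinearMap g.injective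
  set δ : ℝ := min ε 1 / 10 with hδdef
  have hmin : 0 < min ε 1 := lt_min hε one_pos
  have hδ : 0 < δ := by rw [hδdef]; linarith
  have hδε : 6 * δ ≤ ε := by
    have := min_le_left ε 1
    rw [hδdef]; linarith
  have hδ1 : δ ≤ 1 / 10 := by
    have := min_le_right ε 1
    rw [hδdef]; linarith
  have hδ2 : 1 / (1 + ε) ≤ 1 - δ := by
    rw [div_le_iff₀ (by linarith)]
    rcases le_total ε 1 with h | h
    · rw [min_eq_left h] at hδdef
      rw [hδdef]
      nlinarith
    · rw [min_eq_right h] at hδdef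
      rw [hδdef]
      nlinarith
  -- the net and its approximations
  obtain ⟨t, ht1, ht⟩ := exists_net A hδ
  have happ : ∀ a : A, ∃ v : I →₀ ℝ, ‖ic Ψ.sn v - (a : Sp Ψ.sn)‖ ≤ δ := by
    intro a
    obtain ⟨v, hv⟩ := (dense_ic Ψ.sn).exists_dist_lt (a : Sp Ψ.sn) hδ
    refine ⟨v, ?_⟩
    rw [dist_eq_norm, norm_sub_rev] at hv
    exact hv.le
  choose v hv using happ
  obtain ⟨R, hm⟩ : ∃ R : Finset I, ∀ a ∈ t, ∀ n, v a n ≠ 0 → n ∈ R := by
    refine ⟨t.biUnion fun a => (v a).support, ?_⟩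
    intro a ha n hn
    exact Finset.mem_biUnion.mpr ⟨a, ha, Finsupp.mem_support_iff.mpr hn⟩
  -- the norming functionals of B
  obtain ⟨K, hh, hh1, hh2⟩ := exists_norming B hδ
  -- extension of the coordinate functionals to B
  have hc : ∀ i : I, ∃ F : B →L[ℝ] ℝ, (∀ b, |F b| ≤ ‖b‖) ∧ ∀ a : A, F (g a) = cf Ψ i a := by
    intro i
    exact extend_along g ((cf Ψ i).comp A.subtypeL) (fun a => cf_le Ψ i a)
  choose c hc1 hc2 using hc
  -- extension of the norming functionals to G
  have hH : ∀ j : Fin K, ∃ F : Sp Ψ.sn →L[ℝ] ℝ, (∀ x, |F x| ≤ ‖x‖) ∧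
      ∀ a : A, F a = hh j (g a) := by
    intro j
    exact extend_along A.subtypeₗᵢ ((hh j).comp g.toContinuousLinearMap) (fun a => by
      have := hh1 j (g a)
      rwa [g.norm_map] at this)
  choose H hH1 hH2 using hH
  -- approximation of these by the functionals of the tower
  choose ψ hψ1 hψ2 hψ3 using fun j => approx_functional Ψ (H j) (hH1 j) R hδ
  obtain ⟨n, hn2, hn1, hn3⟩ := exists_reps K (fun j t => Ψ.ψ t = ψ j)
    (fun j => hrich (ψ j) (hψ2 j)) R
  let N : Finset I := R ∪ Finset.univ.image n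
  let F : I → (B →L[ℝ] ℝ) := fun k =>
    if k ∈ R then c k else if h : ∃ j, n j = k then hh (Classical.choose h) else 0
  have hF1 : ∀ k, k ∈ R → F k = c k := fun k hk => by simp only [F]; rw [if_pos hk]
  have hF2 : ∀ j, F (n j) = hh j := by
    intro j
    have h1 : ∃ j', n j' = n j := ⟨j, rfl⟩
    have h2 : Classical.choose h1 = j := hn2 (Classical.choose_spec h1)
    simp only [F]
    rw [if_neg (hn1 j), dif_pos h1, h2]
  have hF3 : ∀ k b, |F k b| ≤ ‖b‖ := by
    intro k b
    simp only [F]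
    split_ifs with h1 h2
    · exact hc1 k b
    · exact hh1 _ b
    · simp
  -- the map
  let wl : B →ₗ[ℝ] (I →₀ ℝ) := ∑ k ∈ N, (Finsupp.lsingle k).comp (F k).toLinearMap
  have hwl : ∀ b, wl b = vec N (fun k => F k b) := by
    intro b
    simp only [wl, LinearMap.sum_apply]
    rfl
  have hbound : ∀ b, ‖ic Ψ.sn (Lf Ψ N (wl b))‖ ≤ 1 * ‖b‖ := by
    intro b
    rw [norm_ic, hwl, one_mul]
    refine sn_Lf_le Ψ (vec_supp N _) (norm_nonneg b) fun k hk => ?_
    rw [vec_apply, if_pos hk]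
    exact hF3 k b
  let f : B →L[ℝ] Sp Ψ.sn :=
    LinearMap.mkContinuous (((ic Ψ.sn).comp (Lf Ψ N)).comp wl) 1 hbound
  have hf : ∀ b, f b = ic Ψ.sn (Lf Ψ N (wl b)) := fun b => rfl
  have hfle : ∀ b, ‖f b‖ ≤ ‖b‖ := fun b => by
    have := hbound b
    rwa [one_mul] at this
  have hcoord : ∀ b, ∀ k ∈ N, Ψ.coord (Lf Ψ N (wl b)) k = F k b := by
    intro b k hk
    rw [hwl, coord_Lf_mem Ψ (vec_supp N _) hk, vec_apply, if_pos hk]
  -- the difference on the net
  have hnet : ∀ a ∈ t, ‖f (g a) - ic Ψ.sn (v a)‖ ≤ 3 * δ := by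
    intro a ha
    rw [hf, ← map_sub, norm_ic]
    have hsn : Ψ.sn (v a) ≤ 2 := by
      rw [← norm_ic]
      have h1 : ‖ic Ψ.sn (v a)‖ ≤ ‖ic Ψ.sn (v a) - (a : Sp Ψ.sn)‖ + ‖(a : Sp Ψ.sn)‖ := by
        have := norm_add_le (ic Ψ.sn (v a) - (a : Sp Ψ.sn)) (a : Sp Ψ.sn)
        rwa [sub_add_cancel] at this
      have h2 : ‖(a : Sp Ψ.sn)‖ ≤ 1 := ht1 a ha
      have h3 := hv a
      linarith
    apply Ψ.sn_le (by linarith)
    intro k hk
    have hkN : k ∈ N := by
      by_contra hne
      apply hk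
      rw [Finsupp.sub_apply, Lf_apply, if_neg hne]
      have hkm : ¬ k ∈ R := fun h => hne (Finset.mem_union_left _ h)
      have : v a k = 0 := by
        by_contra h
        exact hkm (hm a ha k h)
      rw [this, sub_zero]
    rw [coord_sub, hcoord _ k hkN]
    by_cases hkm : k ∈ R
    · rw [hF1 k hkm, hc2, ← cf_ic, ← map_sub]
      refine (cf_le Ψ k _).trans ?_
      rw [norm_sub_rev]
      linarith [hv a]
    · have hk2 : k ∈ Finset.univ.image n := by
        rcases Finset.mem_union.mp hkN with h | h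
        · exact absurd h hkm
        · exact h
      obtain ⟨j, -, rfl⟩ := Finset.mem_image.mp hk2
      rw [hF2, ← hH2]
      have h1 : Ψ.coord (v a) (n j) = ev (ψ j) (Ψ.coord (v a)) := by
        rw [Tower.coord_eq]
        have h0 : v a (n j) = 0 := by
          by_contra h
          exact hn1 j (hm a ha _ h)
        rw [h0, zero_add, hn3]
      rw [h1]
      have h2 := hψ3 j (v a) (hm a ha)
      have h3 : |H j a - H j (ic Ψ.sn (v a))| ≤ δ := by
        rw [← map_sub]
        refine (hH1 j _).trans ?_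
        rw [norm_sub_rev]
        exact hv a
      have h4 : δ * Ψ.sn (v a) ≤ 2 * δ := by nlinarith
      calc |H j a - ev (ψ j) (Ψ.coord (v a))|
          ≤ |H j a - H j (ic Ψ.sn (v a))| + |H j (ic Ψ.sn (v a)) - ev (ψ j) (Ψ.coord (v a))| :=
            abs_sub_le _ _ _
        _ ≤ δ + 2 * δ := add_le_add h3 (h2.trans h4)
        _ = 3 * δ := by ring
  refine ⟨f, ?_, ?_⟩
  · intro b
    constructor
    · by_cases hb : b = 0
      · rw [hb]; simp
      · obtain ⟨j, hj⟩ := hh2 b hb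
        have h1 : |hh j b| ≤ ‖f b‖ := by
          rw [hf, norm_ic]
          have h2 := Ψ.coord_le_sn (Lf Ψ N (wl b)) (n j)
          rw [hcoord b (n j) (Finset.mem_union_right _
            (Finset.mem_image_of_mem _ (Finset.mem_univ j))), hF2] at h2
          exact h2
        have h3 : ‖b‖ / (1 + ε) ≤ (1 - δ) * ‖b‖ := by
          rw [div_eq_mul_one_div, mul_comm]
          exact mul_le_mul_of_nonneg_right hδ2 (norm_nonneg b)
        linarith
    · have := hfle b
      nlinarith [norm_nonneg b]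
  · have hD : ‖f.comp g.toContinuousLinearMap - A.subtypeL‖ ≤ ε := by
      apply ContinuousLinearMap.opNorm_le_of_unit_norm hε.le
      intro a ha
      obtain ⟨y, hy, hay⟩ := ht a ha.le
      have e1 : (f.comp g.toContinuousLinearMap - A.subtypeL) a
          = f (g (a - y)) + (f (g y) - ic Ψ.sn (v y)) + (ic Ψ.sn (v y) - (y : Sp Ψ.sn))
            + ((y : Sp Ψ.sn) - (a : Sp Ψ.sn)) := by
        rw [map_sub g, map_sub f]
        show f (g a) - (a : Sp Ψ.sn) = _
        abel
      rw [e1]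
      have h1 : ‖f (g (a - y))‖ ≤ δ := by
        refine (hfle _).trans ?_
        rw [g.norm_map]; exact hay
      have h2 : ‖(y : Sp Ψ.sn) - (a : Sp Ψ.sn)‖ ≤ δ := by
        rw [norm_sub_rev]; exact hay
      calc _ ≤ ‖f (g (a - y))‖ + ‖f (g y) - ic Ψ.sn (v y)‖ + ‖ic Ψ.sn (v y) - (y : Sp Ψ.sn)‖
            + ‖(y : Sp Ψ.sn) - (a : Sp Ψ.sn)‖ := by
            refine (norm_add_le _ _).trans (add_le_add_left ?_ _)
            refine (norm_add_le _ _).trans (add_le_add_left ?_ _)
            exact norm_add_le _ _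
        _ ≤ δ + 3 * δ + δ + δ := by
            gcongr
            · exact hnet y hy
            · exact hv y
        _ = 6 * δ := by ring
        _ ≤ ε := hδε
    intro a
    have := (f.comp g.toContinuousLinearMap - A.subtypeL).le_of_opNorm_le hD a
    exact this

end Pool.Agent.Q196.GB
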