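import Mathlib
import Pool.Agent.Q196.GB.Gur

/-! A rich tower on a well-ordered set of type `ω₁`, and the initial projections. -/

namespace Pool.Agent.Q196.GB

open Pool.Agent.H418R3.Gur Cardinal Set Topology Filter

/-- A well-ordered set of type `ω₁`. -/
abbrev W : Type := (ℵ₁ : Cardinal.{0}).ord.ToType

theorem mk_W : #W = ℵ₁ := mk_ord_toType _

instance : Infinite W := by
  rw [Cardinal.infinite_iff, mk_W]
  exact aleph0_le_aleph 1

theorem countable_Iic (i : W) : (Iic i).Countable := by
  rw [← Iio_insert]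
  exact ((countable_iff_lt_aleph_one _).mpr (mk_Iio_toType_ord_lt i)).insert i

theorem exists_code : ∃ s : W → (W →₀ ℚ), ∀ f, ∀ C : Set W, C.Countable → ∃ t ∉ C, s t = f := by
  have h : #W = #(W × (W →₀ ℚ)) := by
    rw [Cardinal.mk_prod, Cardinal.mk_finsupp_of_infinite, lift_id, lift_id, mk_W, Cardinal.mkRat,
      max_eq_left (aleph0_le_aleph 1), mul_eq_self (aleph0_le_aleph 1)]
  obtain ⟨u⟩ := Cardinal.eq.mp h
  refine ⟨fun t => (u t).2, fun f C hC => ?_⟩
  by_contra hcon
  push Not at hcon
  have h1 : ∀ i : W, u.symm (i, f) ∈ C := by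
    intro i
    by_contra hi
    exact hcon _ hi (by simp)
  have h2 : Function.Injective (fun i : W => (⟨u.symm (i, f), h1 i⟩ : C)) := by
    intro i j hij
    have := congrArg Subtype.val hij
    have := u.symm.injective this
    exact (Prod.mk.inj this).1
  have := hC.to_subtype
  have h3 : Countable W := h2.countable
  have h4 := Cardinal.mk_le_aleph0 (α := W)
  rw [mk_W] at h4
  exact absurd h4 (not_le.mpr aleph0_lt_aleph_one)

noncomputable def code : W → (W →₀ ℚ) := exists_code.choose

theorem code_spec : ∀ f, ∀ C : Set W, C.Countable → ∃ t ∉ C, code t = f := exists_code.choose_spec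

open Classical in
/-- The functionals. -/
noncomputable def psi (t : W) : W →₀ ℚ :=
  if (∀ r, code t r ≠ 0 → r < t) ∧ ((code t).sum fun _ q => |q|) ≤ 1 then code t else 0

theorem psi_lt (t s : W) (h : psi t s ≠ 0) : s < t := by
  unfold psi at h
  split_ifs at h with h1
  · exact h1.1 s h
  · exact absurd rfl h

theorem psi_le (t : W) : ((psi t).sum fun _ q => |q|) ≤ 1 := by
  unfold psi
  split_ifs with h1
  · exact h1.2
  · simp

theorem psi_rich (f : W →₀ ℚ) (hf : (f.sum fun _ q => |q|) ≤ 1) (R : Finset W) :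
    ∃ t ∉ R, psi t = f := by
  obtain ⟨t, ht, htf⟩ := code_spec f (↑R ∪ ⋃ r ∈ f.support, Iic r)
    (R.countable_toSet.union (Set.Countable.biUnion f.support.countable_toSet
      (fun r _ => countable_Iic r)))
  have h1 : t ∉ R := fun h => ht (Or.inl h)
  refine ⟨t, h1, ?_⟩
  unfold psi
  rw [htf, if_pos]
  refine ⟨fun r hr => ?_, hf⟩
  by_contra hlt
  apply ht
  right
  rw [Set.mem_iUnion₂]
  exact ⟨r, Finsupp.mem_support_iff.mpr hr, not_lt.mp hlt⟩

open Classical in
/-- The ranks. -/
noncomputable def rk : W → ℕ :=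
  WellFounded.fix (wellFounded_lt (α := W)) (fun t ih =>
    (psi t).support.sup (fun s => if h : s < t then ih s h + 1 else 0))

theorem rk_lt (t s : W) (h : psi t s ≠ 0) : rk s < rk t := by
  classical
  have hst := psi_lt t s h
  have e : rk t = (psi t).support.sup (fun s => if s < t then rk s + 1 else 0) := by
    unfold rk
    rw [WellFounded.fix_eq]
    rfl
  rw [e]
  have := Finset.le_sup (f := fun s => if s < t then rk s + 1 else 0)
    (Finsupp.mem_support_iff.mpr h)
  simp only [if_pos hst] at this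
  omega

/-- The tower. -/
noncomputable def Om : Tower W := ⟨psi, rk, rk_lt, psi_le⟩

/-- The space. -/
abbrev G : Type := Sp Om.sn

/-- Two vectors which agree on a set closed downwards have the same coordinates there. -/
theorem coord_congr (S : Set W) (hS : ∀ t ∈ S, ∀ s, s < t → s ∈ S) {v w : W →₀ ℝ}
    (h : ∀ t ∈ S, v t = w t) : ∀ t ∈ S, Om.coord v t = Om.coord w t := by
  have key : ∀ n t, Om.rk t < n → t ∈ S → Om.coord v t = Om.coord w t := by
    intro n
    induction n with
    | zero => intro t ht; exact absurd ht (Nat.not_lt_zero _)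
    | succ n ih =>
      intro t ht htS
      rw [Om.coord_eq v, Om.coord_eq w, h t htS]
      congr 1
      apply ev_congr
      intro s hs
      have h1 := Om.lt t s hs
      exact ih s (by omega) (hS t htS s (psi_lt t s hs))
  intro t ht
  exact key _ t (Nat.lt_succ_self _) ht

theorem coord_zero (t : W) : Om.coord 0 t = 0 := by
  have := coord_sub Om 0 0 t
  rw [sub_zero, sub_self] at this
  exact this

theorem coord_single_lt {i t : W} (h : t < i) (a : ℝ) : Om.coord (Finsupp.single i a) t = 0 := by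
  rw [← coord_zero t]
  refine coord_congr (Iio i) (fun t ht s hs => lt_trans hs ht) (fun t ht => ?_) t h
  rw [Finsupp.single_eq_of_ne (ne_of_lt ht)]; rfl

theorem coord_single_self (i : W) (a : ℝ) : Om.coord (Finsupp.single i a) i = a := by
  rw [Om.coord_eq, Finsupp.single_eq_same]
  have : ev (Om.ψ i) (Om.coord (Finsupp.single i a)) = 0 := by
    have hc : ∀ s, Om.ψ i s ≠ 0 →
        Om.coord (Finsupp.single i a) s = (fun _ => (0 : ℝ)) s :=
      fun s hs => coord_single_lt (psi_lt i s hs) a
    rw [ev_congr hc]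
    simp [ev]
  rw [this, add_zero]

theorem sn_single_le (i : W) (a : ℝ) : Om.sn (Finsupp.single i a) ≤ |a| := by
  refine Om.sn_le (abs_nonneg a) fun t ht => ?_
  have : t = i := by
    by_contra h
    exact ht (Finsupp.single_eq_of_ne h)
  rw [this, coord_single_self]

/-- The basis vectors. -/
noncomputable def bas (i : W) : G := ic Om.sn (Finsupp.single i 1)

theorem one_le_norm_bas (i : W) : 1 ≤ ‖bas i‖ := by
  unfold bas
  rw [norm_ic]
  have := Om.coord_le_sn (Finsupp.single i 1) i
  rwa [coord_single_self, abs_one] at this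

theorem bas_sep {i j : W} (h : i < j) : 1 ≤ ‖bas i - bas j‖ := by
  unfold bas
  rw [← map_sub, norm_ic]
  have := Om.coord_le_sn (Finsupp.single i 1 - Finsupp.single j 1) i
  rwa [coord_sub, coord_single_self, coord_single_lt h, sub_zero, abs_one] at this

theorem bas_sep' {i j : W} (h : i ≠ j) : 1 ≤ ‖bas i - bas j‖ := by
  rcases lt_or_gt_of_ne h with h | h
  · exact bas_sep h
  · rw [norm_sub_rev]; exact bas_sep h

/-! ### The projections -/

open Classical in
/-- Restriction to the set `S`. -/
noncomputable def filt (S : Set W) : (W →₀ ℝ) →ₗ[ℝ] (W →₀ ℝ) where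
  toFun v := v.filter (· ∈ S)
  map_add' _ _ := Finsupp.filter_add
  map_smul' _ _ := Finsupp.filter_smul

open Classical in
theorem filt_apply (S : Set W) (v : W →₀ ℝ) (t : W) : filt S v t = if t ∈ S then v t else 0 :=
  Finsupp.filter_apply (· ∈ S) v t

theorem sn_filt_le (S : Set W) (hS : ∀ t ∈ S, ∀ s, s < t → s ∈ S) (v : W →₀ ℝ) :
    Om.sn (filt S v) ≤ Om.sn v := by
  classical
  refine Om.sn_le (apply_nonneg _ _) fun t ht => ?_
  have htS : t ∈ S := by
    by_contra hne
    rw [filt_apply, if_neg hne] at ht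
    exact ht rfl
  rw [coord_congr S hS (w := v) (fun t ht => by rw [filt_apply, if_pos ht]) t htS]
  exact Om.coord_le_sn v t

/-- The ordinal of an element of `W`. -/
noncomputable def ord' (t : W) : Ordinal.{0} := (Ordinal.ToType.toOrd t : Ordinal.{0})

theorem ord'_lt (t : W) : ord' t < (ℵ₁ : Cardinal.{0}).ord := (Ordinal.ToType.toOrd t).2

theorem ord'_lt_iff {s t : W} : ord' s < ord' t ↔ s < t := by
  unfold ord'
  rw [Subtype.coe_lt_coe]
  exact Ordinal.ToType.mk.symm.lt_iff_lt

/-- The initial segment of `W` of the elements below the ordinal `β`. -/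
def seg (β : Ordinal.{0}) : Set W := {t | ord' t < β}

theorem seg_down (β : Ordinal.{0}) : ∀ t ∈ seg β, ∀ s, s < t → s ∈ seg β :=
  fun _ ht _ hs => lt_trans (ord'_lt_iff.mpr hs) ht

/-- The projections. -/
noncomputable def proj (β : Ordinal.{0}) : G →L[ℝ] G :=
  lift Om.sn ((ic Om.sn).comp (filt (seg β)))

theorem proj_bound (β : Ordinal.{0}) (v : W →₀ ℝ) :
    ‖((ic Om.sn).comp (filt (seg β))) v‖ ≤ 1 * Om.sn v := by
  rw [LinearMap.comp_apply, norm_ic, one_mul]
  exact sn_filt_le _ (seg_down β) v

theorem proj_ic (β : Ordinal.{0}) (v : W →₀ ℝ) :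
    proj β (ic Om.sn v) = ic Om.sn (filt (seg β) v) := lift_ic (proj_bound β) v

theorem proj_le (β : Ordinal.{0}) (x : G) : ‖proj β x‖ ≤ ‖x‖ := by
  have := norm_lift_le (proj_bound β) x
  rwa [one_mul] at this

theorem norm_proj_le (β : Ordinal.{0}) : ‖proj β‖ ≤ 1 :=
  ContinuousLinearMap.opNorm_le_bound _ zero_le_one (fun x => by rw [one_mul]; exact proj_le β x)

theorem proj_bas_of_lt {β : Ordinal.{0}} {i : W} (h : ord' i < β) : proj β (bas i) = bas i := by
  classical
  unfold bas
  rw [proj_ic]
  congr 1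
  ext t
  rw [filt_apply]
  by_cases ht : t ∈ seg β
  · rw [if_pos ht]
  · rw [if_neg ht, Finsupp.single_eq_of_ne]
    rintro rfl
    exact ht h

theorem proj_bas_of_le {β : Ordinal.{0}} {i : W} (h : β ≤ ord' i) : proj β (bas i) = 0 := by
  classical
  unfold bas
  rw [proj_ic]
  have : filt (seg β) (Finsupp.single i 1) = 0 := by
    ext t
    rw [filt_apply]
    by_cases ht : t ∈ seg β
    · rw [if_pos ht, Finsupp.single_eq_of_ne]
      · rfl
      · rintro rfl
        exact absurd (show ord' t < β from ht) (not_lt.mpr h)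
    · rw [if_neg ht]; rfl
  rw [this, map_zero]

theorem proj_proj (β : Ordinal.{0}) (x : G) : proj β (proj β x) = proj β x := by
  classical
  have h : (proj β).comp (proj β) = proj β := by
    apply Sp_ext
    intro v
    rw [ContinuousLinearMap.comp_apply, proj_ic, proj_ic]
    congr 1
    ext t
    rw [filt_apply, filt_apply]
    split_ifs <;> rfl
  exact DFunLike.congr_fun h x

theorem proj_top : proj (ℵ₁ : Cardinal.{0}).ord = ContinuousLinearMap.id ℝ G := by
  classical
  apply Sp_ext
  intro v
  rw [proj_ic]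
  show _ = ic Om.sn v
  congr 1
  ext t
  rw [filt_apply, if_pos]
  exact ord'_lt t

theorem eventually_filt (β : Ordinal.{0}) (v : W →₀ ℝ) :
    ∀ᶠ γ in 𝓝 β, filt (seg γ) v = filt (seg β) v := by
  classical
  have h : ∀ᶠ γ in 𝓝 β, ∀ t ∈ v.support, (ord' t < γ ↔ ord' t < β) := by
    rw [Filter.eventually_all_finset]
    intro t _
    by_cases ht : ord' t < β
    · filter_upwards [Ioi_mem_nhds ht] with γ hγ
      exact ⟨fun _ => ht, fun _ => hγ⟩
    · have h1 : β < Order.succ (ord' t) := Order.lt_succ_iff.mpr (not_lt.mp ht)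
      filter_upwards [Iio_mem_nhds h1] with γ hγ
      have h2 : γ ≤ ord' t := Order.lt_succ_iff.mp hγ
      exact ⟨fun h => absurd h (not_lt.mpr h2), fun h => absurd h ht⟩
  filter_upwards [h] with γ hγ
  ext t
  rw [filt_apply, filt_apply]
  by_cases ht : t ∈ v.support
  · have h1 : t ∈ seg γ ↔ t ∈ seg β := hγ t ht
    by_cases h2 : t ∈ seg β
    · rw [if_pos h2, if_pos (h1.mpr h2)]
    · rw [if_neg h2, if_neg (fun h => h2 (h1.mp h))]
  · rw [Finsupp.notMem_support_iff.mp ht]
    split_ifs <;> rfl

theorem continuous_proj (x : G) : Continuous (fun β => proj β x) := by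
  rw [continuous_iff_continuousAt]
  intro β
  rw [ContinuousAt, Metric.tendsto_nhds]
  intro ε hε
  obtain ⟨v, hv⟩ := (dense_ic Om.sn).exists_dist_lt x (half_pos hε)
  filter_upwards [eventually_filt β v] with γ hγ
  rw [dist_eq_norm]
  have h1 : proj γ (ic Om.sn v) = proj β (ic Om.sn v) := by rw [proj_ic, proj_ic, hγ]
  have h2 : proj γ x - proj β x = proj γ (x - ic Om.sn v) - proj β (x - ic Om.sn v) := by
    rw [map_sub, map_sub, h1]; abel
  rw [dist_eq_norm] at hv
  calc ‖proj γ x - proj β x‖ ≤ ‖proj γ (x - ic Om.sn v)‖ + ‖proj β (x - ic Om.sn v)‖ := by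
        rw [h2]; exact norm_sub_le _ _
    _ ≤ ‖x - ic Om.sn v‖ + ‖x - ic Om.sn v‖ := add_le_add (proj_le _ _) (proj_le _ _)
    _ < ε := by linarith

/-! ### Density -/

theorem ic_mem_span (v : W →₀ ℝ) : ic Om.sn v ∈ Submodule.span ℝ (Set.range bas) := by
  have h : v = v.sum fun i a => a • (Finsupp.single i 1 : W →₀ ℝ) := by
    conv_lhs => rw [← Finsupp.sum_single v]
    unfold Finsupp.sum
    exact Finset.sum_congr rfl fun i _ => by
      show Finsupp.single i (v i) = v i • Finsupp.single i 1
      rw [Finsupp.smul_single, smul_eq_mul, mul_one]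
  rw [h]
  unfold Finsupp.sum
  rw [map_sum]
  refine Submodule.sum_mem _ fun i _ => ?_
  rw [map_smul]
  exact Submodule.smul_mem _ _ (Submodule.subset_span ⟨i, rfl⟩)

theorem span_dense : Dense (Submodule.span ℝ (Set.range bas) : Set G) :=
  (dense_ic Om.sn).mono (by rintro _ ⟨v, rfl⟩; exact ic_mem_span v)

/-- Rational vectors. -/
noncomputable def ratv (q : W →₀ ℚ) : G := ic Om.sn (q.mapRange (fun a : ℚ => (a : ℝ)) (by simp))

theorem dense_ratv : DenseRange ratv := by
  classical
  rw [Metric.denseRange_iff]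
  intro x r hr
  obtain ⟨v, hv⟩ := (dense_ic Om.sn).exists_dist_lt x (half_pos hr)
  have hδ : 0 < r / 2 / (v.support.card + 1) := div_pos (half_pos hr) (by positivity)
  choose q hq using fun a : ℝ => exists_rat_near a hδ
  let f : W →₀ ℚ := Finsupp.onFinset v.support (fun i => if i ∈ v.support then q (v i) else 0) (by
    intro i hi
    by_contra hne
    simp only [if_neg hne] at hi
    exact hi rfl)
  refine ⟨f, ?_⟩
  have h1 : dist (ic Om.sn v) (ratv f) ≤ r / 2 := by
    rw [dist_eq_norm]
    unfold ratv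
    rw [← map_sub, norm_ic]
    have h2 : v - f.mapRange (fun a : ℚ => (a : ℝ)) (by simp)
        = ∑ i ∈ v.support, Finsupp.single i (v i - q (v i)) := by
      ext t
      rw [sum_single_apply v.support (fun i => v i - q (v i)) t, Finsupp.sub_apply,
        Finsupp.mapRange_apply]
      show v t - ((if t ∈ v.support then q (v t) else 0 : ℚ) : ℝ) = _
      by_cases ht : t ∈ v.support
      · rw [if_pos ht, if_pos ht]
      · rw [if_neg ht, if_neg ht, Finsupp.notMem_support_iff.mp ht]; simp
    rw [h2]
    have h3 : Om.sn (∑ i ∈ v.support, Finsupp.single i (v i - q (v i)))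
        ≤ ∑ i ∈ v.support, r / 2 / (v.support.card + 1) := by
      refine (Finset.le_sum_of_subadditive (fun w : W →₀ ℝ => Om.sn w) (map_zero Om.sn).le
        (fun x y => map_add_le_add Om.sn x y) _ _).trans (Finset.sum_le_sum fun i _ => ?_)
      exact (sn_single_le i _).trans (hq (v i)).le
    refine h3.trans ?_
    rw [Finset.sum_const, nsmul_eq_mul]
    have hc : (0 : ℝ) ≤ v.support.card := Nat.cast_nonneg _
    rw [mul_div_assoc', div_le_iff₀ (by linarith)]
    nlinarith
  calc dist x (ratv f) ≤ dist x (ic Om.sn v) + dist (ic Om.sn v) (ratv f) := dist_triangle _ _ _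
    _ < r := by linarith

theorem mk_le_of_dense (D : Set G) (hD : Dense D) : ℵ₁ ≤ #D := by
  have h : ∀ i : W, ∃ d ∈ D, dist (bas i) d < 1 / 2 := fun i =>
    hD.exists_dist_lt (bas i) (by norm_num)
  choose d hd1 hd2 using h
  have hinj : Function.Injective (fun i => (⟨d i, hd1 i⟩ : D)) := by
    intro i j hij
    have h1 : d i = d j := congrArg Subtype.val hij
    by_contra hne
    have h2 := bas_sep' hne
    rw [← dist_eq_norm] at h2
    have h3 := dist_triangle_right (bas i) (bas j) (d i)
    have h4 := hd2 i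
    have h5 := hd2 j
    rw [← h1] at h5
    linarith
  have := Cardinal.mk_le_of_injective hinj
  rwa [mk_W] at this

theorem exists_dense : ∃ D : Set G, Dense D ∧ #D = ℵ₁ := by
  refine ⟨Set.range ratv, dense_ratv, ?_⟩
  apply le_antisymm _ (mk_le_of_dense _ dense_ratv)
  refine mk_range_le.trans ?_
  rw [Cardinal.mk_finsupp_of_infinite, mk_W, Cardinal.mkRat, max_eq_left (aleph0_le_aleph 1)]

end Pool.Agent.Q196.GB
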